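import Mathlib

set_option autoImplicit false

namespace Pool.Agent.Results.MP_d2cf4a_al.DimsDiffer

open Module

section Defs
variable {K V : Type} [Field K] [AddCommGroup V] [Module K V]

/-- `f` is diagonalizable: its eigenspaces span the space. -/
def Diag (f : End K V) : Prop := ⨆ μ : K, f.eigenspace μ = ⊤

/-- `θ 0, …, θ d` lists the eigenvalues of `f`, each once; so `f.eigenspace (θ i)` is an
ordering of the eigenspaces of `f`. -/
def IsOrdering (f : End K V) (d : ℕ) (θ : Fin (d + 1) → K) : Prop :=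
  Function.Injective θ ∧ ∀ μ : K, f.HasEigenvalue μ ↔ μ ∈ Set.range θ

/-- `g V_i ⊆ V_0 + ⋯ + V_{i+1}` for all `i`, where `V_i = f.eigenspace (θ i)`. -/
def Hess (f g : End K V) (d : ℕ) (θ : Fin (d + 1) → K) : Prop :=
  ∀ i : Fin (d + 1), (f.eigenspace (θ i)).map g ≤
    ⨆ j : Fin (d + 1), ⨆ _ : (j : ℕ) ≤ i + 1, f.eigenspace (θ j)

/-- Conditions 1-4 of the problem for `A, B`, with the orderings `V_i = A.eigenspace (θ i)`
and `V*_i = B.eigenspace (η i)` of the eigenspaces. -/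
def IsHessPair (A B : End K V) (d δ : ℕ) (θ : Fin (d + 1) → K) (η : Fin (δ + 1) → K) : Prop :=
  Diag A ∧ Diag B ∧ IsOrdering A d θ ∧ Hess A B d θ ∧ IsOrdering B δ η ∧ Hess B A δ η ∧
    ∀ W : Submodule K V, W.map A ≤ W → W.map B ≤ W → W = ⊥ ∨ W = ⊤

end Defs

/-- The space. -/
abbrev X := Fin 5 → ℂ

/-- First map. -/
noncomputable def A : End ℂ X :=
  Matrix.toLin' !![1,0,0,0,0; 0,1,0,0,0; 0,0,0,0,0; 0,0,0,0,0; 0,0,0,0,-1]
/-- Second map. -/
noncomputable def B : End ℂ X :=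
  Matrix.toLin' !![-1,1,1,0,0; 1,-1,-1,1,1; 0,1,0,1,2; 1,0,-1,0,1; 0,0,0,1,1]

lemma ext5 {x y : X} :
    x = y ↔ x 0 = y 0 ∧ x 1 = y 1 ∧ x 2 = y 2 ∧ x 3 = y 3 ∧ x 4 = y 4 := by
  constructor
  · rintro rfl; simp
  · rintro ⟨a, b, c, d, e⟩; funext i; fin_cases i <;> assumption

lemma A_ap (x : X) : A x = ![x 0, x 1, 0, 0, -x 4] := by
  rw [ext5]; simp [A, Matrix.toLin'_apply, Matrix.mulVec, dotProduct, Fin.sum_univ_five]
lemma B_ap (x : X) : B x = ![-x 0 + x 1 + x 2, x 0 - x 1 - x 2 + x 3 + x 4,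
    x 1 + x 3 + 2 * x 4, x 0 - x 2 + x 4, x 3 + x 4] := by
  rw [ext5]; simp [B, Matrix.toLin'_apply, Matrix.mulVec, dotProduct, Fin.sum_univ_five]
  refine ⟨by ring, by ring⟩

lemma memA (μ : ℂ) (x : X) : x ∈ A.eigenspace μ ↔
    x 0 = μ * x 0 ∧ x 1 = μ * x 1 ∧ 0 = μ * x 2 ∧ 0 = μ * x 3 ∧ -x 4 = μ * x 4 := by
  rw [End.mem_eigenspace_iff, A_ap, ext5]; simp only [Pi.smul_apply, smul_eq_mul]; rfl
lemma memB (μ : ℂ) (x : X) : x ∈ B.eigenspace μ ↔
    -x 0 + x 1 + x 2 = μ * x 0 ∧ x 0 - x 1 - x 2 + x 3 + x 4 = μ * x 1 ∧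
    x 1 + x 3 + 2 * x 4 = μ * x 2 ∧ x 0 - x 2 + x 4 = μ * x 3 ∧ x 3 + x 4 = μ * x 4 := by
  rw [End.mem_eigenspace_iff, B_ap, ext5]; simp only [Pi.smul_apply, smul_eq_mul]; rfl

lemma A3 (x : X) : A (A (A x)) = A x := by rw [ext5]; simp [A_ap]
lemma B3 (x : X) : B (B (B x)) = B x := by
  rw [ext5]; simp [B_ap]; refine ⟨?_, ?_, ?_, ?_, ?_⟩ <;> ring

lemma sup3 (f : End ℂ X) (hf : ∀ x, f (f (f x)) = f x) (P : Fin 3 → Prop) (x : X)
    (h0 : P 0) (h1 : P 1) (h2 : P 2 ∨ f (f x) = f x) :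
    x ∈ ⨆ j, ⨆ _ : P j, f.eigenspace (![1, 0, -1] j) := by
  have key : ∀ (j : Fin 3) (y : X), y ∈ f.eigenspace (![1, 0, -1] j) → P j ∨ y = 0 →
      y ∈ ⨆ j, ⨆ _ : P j, f.eigenspace (![1, 0, -1] j) := by
    intro j y hy p
    rcases p with p | p
    · exact Submodule.mem_iSup_of_mem j (Submodule.mem_iSup_of_mem p hy)
    · rw [p]; exact zero_mem _
  have e : x = (1 / 2 : ℂ) • (f (f x) + f x) + (x - f (f x)) + (1 / 2 : ℂ) • (f (f x) - f x) := by
    module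
  rw [e]
  refine add_mem (add_mem (key 0 _ ?_ (Or.inl h0)) (key 1 _ ?_ (Or.inl h1))) (key 2 _ ?_ ?_)
  · rw [End.mem_eigenspace_iff, map_smul, map_add, hf]
    change _ = (1 : ℂ) • _
    module
  · rw [End.mem_eigenspace_iff, map_sub, hf]
    change _ = (0 : ℂ) • _
    module
  · rw [End.mem_eigenspace_iff, map_smul, map_sub, hf]
    change _ = (-1 : ℂ) • _
    module
  · exact h2.imp_right fun h => by rw [h]; simp

lemma diag3 (f : End ℂ X) (hf : ∀ x, f (f (f x)) = f x) : Diag f := by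
  rw [Diag, eq_top_iff]
  intro x _
  have h := sup3 f hf (fun _ => True) x trivial trivial (Or.inl trivial)
  exact (iSup_le fun j => iSup_le fun _ => le_iSup (fun μ => f.eigenspace μ) _ :
    (⨆ j : Fin 3, ⨆ _ : True, f.eigenspace (![1, 0, -1] j)) ≤ _) h

lemma ord3 (f : End ℂ X) (hf : ∀ x, f (f (f x)) = f x)
    (h : ∀ j : Fin 3, ∃ x ∈ f.eigenspace (![1, 0, -1] j), x ≠ 0) :
    IsOrdering f 2 ![1, 0, -1] := by
  refine ⟨?_, fun μ => ?_⟩
  · intro i j h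
    fin_cases i <;> fin_cases j <;> simp at h ⊢ <;> norm_num at h
  · rw [End.hasEigenvalue_iff, Submodule.ne_bot_iff]
    constructor
    · rintro ⟨x, hx, hne⟩
      rw [End.mem_eigenspace_iff] at hx
      have h3 := hf x
      simp only [hx, map_smul, smul_smul] at h3
      have h4 : (μ * (μ * μ) - μ) • x = 0 := by
        rw [sub_smul, ← h3, sub_eq_zero]
        congr 1
        ring
      have h5 : μ * (μ * μ) - μ = 0 := (smul_eq_zero.1 h4).resolve_right hne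
      by_contra hc
      have c0 : μ ≠ 1 := fun e => hc ⟨0, by simp [e]⟩
      have c1 : μ ≠ 0 := fun e => hc ⟨1, by simp [e]⟩
      have c2 : μ ≠ -1 := fun e => hc ⟨2, by simp [e]⟩
      grind
    · rintro ⟨j, rfl⟩
      exact h j

lemma irred (W : Submodule ℂ X) (hA : W.map A ≤ W) (hB : W.map B ≤ W) : W = ⊥ ∨ W = ⊤ := by
  have iA : ∀ x ∈ W, A x ∈ W := fun x hx => hA ⟨x, hx, rfl⟩
  have iB : ∀ x ∈ W, B x ∈ W := fun x hx => hB ⟨x, hx, rfl⟩
  have p0 : ∀ x ∈ W, (![x 0, x 1, 0, 0, 0] : X) ∈ W := by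
    intro x hx
    have := W.smul_mem (1 / 2) (add_mem (iA _ (iA x hx)) (iA x hx))
    convert this using 1
    rw [ext5]; simp [A_ap]
    refine ⟨?_, ?_⟩ <;> ring
  have p4 : ∀ x ∈ W, x 4 ≠ 0 → (![0, 0, 0, 0, 1] : X) ∈ W := by
    intro x hx h
    have := W.smul_mem (1 / (2 * x 4)) (sub_mem (iA _ (iA x hx)) (iA x hx))
    convert this using 1
    rw [ext5]; simp [A_ap]; field_simp; ring
  have pm : ∀ x ∈ W, (![0, 0, x 2, x 3, 0] : X) ∈ W := by
    intro x hx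
    have := sub_mem hx (iA _ (iA x hx))
    convert this using 1
    rw [ext5]; simp [A_ap]
  by_cases h4 : (![0, 0, 0, 0, 1] : X) ∈ W
  · right
    have h1 := pm _ (iB _ h4)
    have h2 := pm _ (iB _ h1)
    have hm : ∀ a b : ℂ, (![0, 0, a, b, 0] : X) ∈ W := by
      intro a b
      have := add_mem (W.smul_mem ((2 * a + b) / 5) h1) (W.smul_mem ((a - 2 * b) / 5) h2)
      convert this using 1
      rw [ext5]; simp [B_ap]
      refine ⟨?_, ?_⟩ <;> ring
    rw [eq_top_iff]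
    intro x _
    have := add_mem (add_mem (W.smul_mem (x 4) h4) (hm (x 2) (x 3)))
      (p0 _ (iB _ (hm (x 0) (x 0 + x 1))))
    convert this using 1
    rw [ext5]; simp [B_ap]
  · left
    have z4 : ∀ x ∈ W, x 4 = 0 := fun x hx => by
      by_contra h
      exact h4 (p4 x hx h)
    have z3 : ∀ x ∈ W, x 3 = 0 := fun x hx => by
      have := z4 _ (iB _ (pm x hx))
      simpa [B_ap] using this
    have z2 : ∀ x ∈ W, x 2 = 0 := fun x hx => by
      have := z3 _ (iB _ (pm x hx))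
      simpa [B_ap] using this
    rw [eq_bot_iff]
    intro x hx
    have a := z2 _ (iB _ (p0 x hx))
    have b := z3 _ (iB _ (p0 x hx))
    simp [B_ap] at a b
    rw [Submodule.mem_bot, ext5]
    simp [a, b, z2 x hx, z3 x hx, z4 x hx]

theorem result : ∃ (A B : End ℂ (Fin 5 → ℂ)) (θ η : Fin 3 → ℂ),
    IsHessPair A B 2 2 θ η ∧
      finrank ℂ (A.eigenspace (θ 0)) ≠ finrank ℂ (B.eigenspace (η 0)) := by
  refine ⟨A, B, ![1, 0, -1], ![1, 0, -1],
    ⟨diag3 A A3, diag3 B B3, ord3 A A3 ?_, ?_, ord3 B B3 ?_, ?_, irred⟩, ?_⟩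
  · intro j
    fin_cases j
    · exact ⟨![1, 0, 0, 0, 0], by rw [memA]; simp, by rw [Ne, ext5]; simp⟩
    · exact ⟨![0, 0, 1, 0, 0], by rw [memA]; simp, by rw [Ne, ext5]; simp⟩
    · exact ⟨![0, 0, 0, 0, 1], by rw [memA]; simp, by rw [Ne, ext5]; simp⟩
  · intro i
    rintro _ ⟨x, hx, rfl⟩
    have hx' := (memA _ _).1 hx
    refine sup3 A A3 (fun j : Fin 3 => (j : ℕ) ≤ i + 1) _ (by simp) (by simp) ?_
    fin_cases i
    · right
      rw [ext5]
      simp [A_ap, B_ap] at hx' ⊢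
      grind
    · left; simp
    · left; simp
  · intro j
    fin_cases j
    · exact ⟨![1, 0, 2, 0, 1], by rw [memB]; simp; norm_num, by rw [Ne, ext5]; simp⟩
    · exact ⟨![1, 0, 1, 0, 0], by rw [memB]; simp, by rw [Ne, ext5]; simp⟩
    · exact ⟨![1, -1, 1, 0, 0], by rw [memB]; simp, by rw [Ne, ext5]; simp⟩
  · intro i
    rintro _ ⟨x, hx, rfl⟩
    have hx' := (memB _ _).1 hx
    refine sup3 B B3 (fun j : Fin 3 => (j : ℕ) ≤ i + 1) _ (by simp) (by simp) ?_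
    fin_cases i
    · right
      rw [ext5]
      simp [A_ap, B_ap] at hx' ⊢
      grind
    · left; simp
    · left; simp
  · have hB : B.eigenspace ((![1, 0, -1] : Fin 3 → ℂ) 0) =
        Submodule.span ℂ {(![1, 0, 2, 0, 1] : X)} := by
      ext x
      rw [memB, Submodule.mem_span_singleton]
      constructor
      · intro h
        refine ⟨x 4, ?_⟩
        rw [ext5]
        simp at h ⊢
        grind
      · rintro ⟨c, rfl⟩
        simp
        grind
    rw [hB, finrank_span_singleton (by rw [Ne, ext5]; simp)]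
    intro h
    obtain ⟨v, _, hv⟩ := finrank_eq_one_iff'.1 h
    obtain ⟨a, ha⟩ := hv ⟨![1, 0, 0, 0, 0], by rw [memA]; simp⟩
    obtain ⟨b, hb⟩ := hv ⟨![0, 1, 0, 0, 0], by rw [memA]; simp⟩
    have a0 : a * v.1 0 = 1 := congrArg (fun y => y.1 0) ha
    have a1 : a * v.1 1 = 0 := congrArg (fun y => y.1 1) ha
    have b0 : b * v.1 0 = 0 := congrArg (fun y => y.1 0) hb
    have b1 : b * v.1 1 = 1 := congrArg (fun y => y.1 1) hb
    grind

end Pool.Agent.Results.MP_d2cf4a_al.DimsDiffer
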